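import Pool.Agent.helper51.WR.WrapE

/-!
# Rational cuspidal plane curves with a cusp of multiplicity `d - 4`

`K : WR.RatCusp` is a rational cuspidal plane curve of degree `d`, given by its normalization, an injective map
`φ = (F 0 : F 1 : F 2)` from the projective line to the plane. The parameter is chosen such that `p₀ = φ(∞)` is
the cusp of multiplicity `m` (`MultInf`), `d = m + 4`. Assumption `Meets`: every line through `p₀` meets the curve
in another point (for curves with three cusps this is automatic by the theorem of Lin and Zaidenberg).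

If `m ≥ 8` and there are two further cusps, then there are exactly three cusps, `m = 3 l`, and the curve has the
numerical type of Fenske's series `FE`: `s₀`, `s₁`, `s₂` are the sums of `μ - 2 + c` over the blow-ups of the
minimal embedded resolution of the three cusps (`BrInf`, `BrAt`), `μ` = multiplicity of the strict transform at
the centre, `c` = number of exceptional curves through the centre. The number `9 - 3 d + s₀ + s₁ + s₂` is
`K_V (K_V + D)`, the Euler characteristic of the logarithmic tangent bundle.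
-/

namespace Pool.Agent.Results.MP_3be46f_ag.FenskeCase

open WR

theorem result (K : RatCusp) (m : ℕ) (h8 : 8 ≤ m) (hd : K.d = m + 4) (hm : K.MultInf m)
    (hM : K.Meets) (h3 : ∃ t t' : ℂ, t ≠ t' ∧ K.Cusp t ∧ K.Cusp t') :
    ∃ (t₁ t₂ : ℂ) (s₀ s₁ s₂ : ℤ) (l : ℕ), t₁ ≠ t₂ ∧ (∀ t, K.Cusp t ↔ t = t₁ ∨ t = t₂) ∧
      BrInf K.F K.d s₀ ∧ BrAt K.F t₁ s₁ ∧ BrAt K.F t₂ s₂ ∧
      9 - 3 * (K.d : ℤ) + (s₀ + s₁ + s₂) = 0 ∧
      m = 3 * l ∧ s₀ = 6 * l - 1 ∧ s₁ = 3 * l + 3 ∧ s₂ = 1 := by
  obtain ⟨t₁, t₂, s₀, s₁, s₂, hne, hc, h0, h1, h2, hs, hcase⟩ :=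
    K.mainE m 4 (by omega) (by omega) hm hM (Or.inl ⟨rfl, h8⟩) h3
  rcases hcase with ⟨h, -⟩ | ⟨l, h, -⟩ | ⟨l, -, h⟩
  · omega
  · omega
  · exact ⟨t₁, t₂, s₀, s₁, s₂, l, hne, hc, h0, h1, h2, hs, h⟩

end Pool.Agent.Results.MP_3be46f_ag.FenskeCase
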