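import Pool.Agent.helper75.WRB.Wrap

/-!
# Weak rigidity of rational cuspidal plane curves with a cusp of large multiplicity

`K : WR.RatCusp` is a rational cuspidal plane curve of degree `d`, given by its normalization, an injective map
`φ = (F 0 : F 1 : F 2)` from the projective line to the plane. The parameter is chosen such that
`p₀ = φ(∞)` is the cusp of multiplicity `m ≥ 2` (`MultInf`), `n = d - m`, and `T` is the tangent line at `p₀`, which
meets the curve in another point: `1 ≤ k`, `k = d - (T . C)` at `p₀` is the degree of the form of `T` (for curves with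
three cusps this is automatic by the theorem of Lin and Zaidenberg).

Let there be two further cusps, and let `m > 3 (n - 1) (n - 2)`, or `k ≥ 2` and `k m ≥ 3 n (n + 1)`. Then `k = 1` (so
there is no such curve with `k ≥ 2`), there are exactly three cusps, `n ≤ 4`, and the curve has the numerical type of
the series `FZ1` (`n = 2`), `FZ2` (`n = 3`) or `FE` (`n = 4`): `s₀`, `s₁`, `s₂` are the sums of `μ - 2 + c` over the
blow-ups of the minimal embedded resolution of the three cusps (`BrInf`, `BrAt`), `μ` = multiplicity of the strict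
transform at the centre, `c` = number of exceptional curves through the centre. The number
`9 - 3 d + s₀ + s₁ + s₂` is `K_V (K_V + D)`, the Euler characteristic of the logarithmic tangent bundle.

The proof projects from `p₀`: the orders of all Wronskians `det (1, y, y')` of triples of sheets are summed
over all places and compared with the orders of the differences of the sheets.
-/

namespace Pool.Agent.Results.MP_3be46f_ag.LargeCusp

open WR

theorem result (K : RatCusp) (m n k : ℕ) (h2 : 2 ≤ m) (hn : n + m = K.d) (hm : K.MultInf m)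
    (T : Fin 3 → ℂ) (hT : K.Tangent m T) (hk : (K.form T).natDegree = k) (hk1 : 1 ≤ k)
    (hbig : 3 * ((n : ℤ) - 1) * (n - 2) < m ∨ (2 ≤ k ∧ 3 * n * (n + 1) ≤ k * m))
    (h3 : ∃ t t' : ℂ, t ≠ t' ∧ K.Cusp t ∧ K.Cusp t') :
    k = 1 ∧ ∃ (t₁ t₂ : ℂ) (s₀ s₁ s₂ : ℤ), t₁ ≠ t₂ ∧ (∀ t, K.Cusp t ↔ t = t₁ ∨ t = t₂) ∧
      BrInf K.F K.d s₀ ∧ BrAt K.F t₁ s₁ ∧ BrAt K.F t₂ s₂ ∧
      9 - 3 * (K.d : ℤ) + (s₀ + s₁ + s₂) = 0 ∧
      ((K.d = m + 2 ∧ s₀ = 2 * m - 3 ∧ 1 ≤ s₁ ∧ 1 ≤ s₂ ∧ s₁ + s₂ = m) ∨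
       (∃ l : ℕ, K.d = m + 3 ∧ m = 2 * l ∧ s₀ = 4 * l - 2 ∧ s₁ = 2 * l + 1 ∧ s₂ = 1) ∨
       (∃ l : ℕ, K.d = m + 4 ∧ m = 3 * l ∧ s₀ = 6 * l - 1 ∧ s₁ = 3 * l + 3 ∧ s₂ = 1)) :=
  K.mainBig m n k h2 hn hm T hT hk hk1 hbig h3

end Pool.Agent.Results.MP_3be46f_ag.LargeCusp
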