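import Pool.Agent.helper51.WR.WrapU

/-!
# Rational cuspidal plane curves: a linear bound for the multiplicity

`K : WR.RatCusp` is a rational cuspidal plane curve of degree `d`, given by its normalization, an injective map
`φ = (F 0 : F 1 : F 2)` from the projective line to the plane. The parameter is chosen such that `p₀ = φ(∞)` is
a cusp, of multiplicity `m` (`MultInf`); `n = d - m`, `T` is the tangent line at `p₀`, `k = d - (T . C)` at `p₀`, and
`u ≥ 1` is the number of points of the curve on `T`, without `p₀`. Let there be at least two cusps which are not on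
`T`. Let `g = gcd (n - k, m)`. The other conditions are:

* `m ≥ 2 n + k + 3` and `m (n + k² - 1) ≥ (3 u - 1) n² + 4 n`. For `u = 1` the second condition follows from the
  first. For every `u` both follow from `m ≥ (3 u - 1) n + k + 4`, and from `m ≥ 2 n ^ (3/2) + 3 n`;
* `(n - g) (m + n - 1) ≥ 3 (n - 1) (n - 2)`, or a line `L ≠ T` through `p₀` (`Secant`) meets the curve in a point
  different from `p₀` with multiplicity at least `g`. This holds if `g = 1`, and if `n - k` does not divide `m` and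
  `m ≥ 5 n`;
* if `u ≥ 2`: every line `L ≠ T` through `p₀` meets the curve in at least two further points, or
  `m k (k - 1) ≥ 3 (u - 1) n² + 3 n`.

Then there are exactly three cusps, `n ≤ 4`, and the curve has the numerical type of the series `FZ1` (`n = 2`),
`FZ2` (`n = 3`) or `FE` (`n = 4`): `s₀`, `s₁`, `s₂` are the sums of `μ - 2 + c` over the blow-ups of the minimal
embedded resolution of the three cusps (`BrInf`, `BrAt`), `μ` = multiplicity of the strict transform at the centre,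
`c` = number of exceptional curves through the centre. The number `9 - 3 d + s₀ + s₁ + s₂` is `K_V (K_V + D)`, the
Euler characteristic of the logarithmic tangent bundle.
-/

namespace Pool.Agent.Results.MP_3be46f_ag.LinearBound

open WR Polynomial

theorem result (K : RatCusp) (m n k u : ℕ) (hn : n + m = K.d) (hm : K.MultInf m) (T : Fin 3 → ℂ)
    (hT : K.Tangent m T) (hk : (K.form T).natDegree = k) (hu : K.pts T = u) (hu1 : 1 ≤ u)
    (hlin : 2 * n + k + 3 ≤ m)
    (hmu : (3 * (u : ℤ) - 1) * n ^ 2 + 4 * n ≤ m * (n + k ^ 2 - 1))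
    (hg : 3 * ((n : ℤ) - 1) * (n - 2) ≤ ((n : ℤ) - Nat.gcd (n - k) m) * (m + n - 1) ∨
      ∃ (L : Fin 3 → ℂ) (t : ℂ), K.Secant m L ∧
        Nat.gcd (n - k) m ≤ rootMultiplicity t (K.form L))
    (hL : u = 1 ∨ (∀ L, K.Secant m L → K.pts L ≠ 1) ∨
      3 * ((u : ℤ) - 1) * n ^ 2 + 3 * n ≤ m * (k * (k - 1)))
    (h3 : ∃ t t' : ℂ, t ≠ t' ∧ K.Cusp t ∧ K.Cusp t' ∧ (K.form T).eval t ≠ 0 ∧
      (K.form T).eval t' ≠ 0) :
    ∃ (t₁ t₂ : ℂ) (s₀ s₁ s₂ : ℤ), t₁ ≠ t₂ ∧ (∀ t, K.Cusp t ↔ t = t₁ ∨ t = t₂) ∧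
      BrInf K.F K.d s₀ ∧ BrAt K.F t₁ s₁ ∧ BrAt K.F t₂ s₂ ∧
      9 - 3 * (K.d : ℤ) + (s₀ + s₁ + s₂) = 0 ∧
      ((K.d = m + 2 ∧ s₀ = 2 * m - 3 ∧ 1 ≤ s₁ ∧ 1 ≤ s₂ ∧ s₁ + s₂ = m) ∨
       (∃ l : ℕ, K.d = m + 3 ∧ m = 2 * l ∧ s₀ = 4 * l - 2 ∧ s₁ = 2 * l + 1 ∧ s₂ = 1) ∨
       (∃ l : ℕ, K.d = m + 4 ∧ m = 3 * l ∧ s₀ = 6 * l - 1 ∧ s₁ = 3 * l + 3 ∧ s₂ = 1)) :=
  K.mainU m n k u hn hm T hT hk hu hu1 hlin hmu hg hL h3

end Pool.Agent.Results.MP_3be46f_ag.LinearBound
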