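import Pool.Agent.helper51.WR.WrapE

/-!
# Rational cuspidal plane curves and two lines through a cusp

`K : WR.RatCusp` is a rational cuspidal plane curve of degree `d`, given by its normalization, an injective map
`φ = (F 0 : F 1 : F 2)` from the projective line to the plane. The parameter is chosen such that `p₀ = φ(∞)` is
a cusp, of multiplicity `m ≥ 2` (`MultInf`).

Let the tangent line `T` at `p₀` and another line `L` through `p₀` meet the curve in exactly one more point each,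
and let there be a cusp which is neither on `T` nor on `L`. There is no condition on the multiplicities. If there
are at least three cusps, then there are exactly three, `n = d - m ≤ 4`, and the curve has the numerical type of
the series `FZ1` (`n = 2`), `FZ2` (`n = 3`) or `FE` (`n = 4`): `s₀`, `s₁`, `s₂` are the sums of `μ - 2 + c` over
the blow-ups of the minimal embedded resolution of the three cusps (`BrInf`, `BrAt`), `μ` = multiplicity of the
strict transform at the centre, `c` = number of exceptional curves through the centre. The number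
`9 - 3 d + s₀ + s₁ + s₂` is `K_V (K_V + D)`, the Euler characteristic of the logarithmic tangent bundle.
-/

namespace Pool.Agent.Results.MP_3be46f_ag.TwoLines

open WR Polynomial

theorem result (K : RatCusp) (m : ℕ) (h2 : 2 ≤ m) (hm : K.MultInf m) (T L : Fin 3 → ℂ) (hT : K.Tangent m T) (hL : K.Secant m L) (hpT : K.pts T = 1)
    (hpL : K.pts L = 1)
    (hoff : ∃ t, K.Cusp t ∧ (K.form T).eval t ≠ 0 ∧ (K.form L).eval t ≠ 0)
    (h3 : ∃ t t' : ℂ, t ≠ t' ∧ K.Cusp t ∧ K.Cusp t') :
    ∃ (t₁ t₂ : ℂ) (s₀ s₁ s₂ : ℤ), t₁ ≠ t₂ ∧ (∀ t, K.Cusp t ↔ t = t₁ ∨ t = t₂) ∧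
      BrInf K.F K.d s₀ ∧ BrAt K.F t₁ s₁ ∧ BrAt K.F t₂ s₂ ∧
      9 - 3 * (K.d : ℤ) + (s₀ + s₁ + s₂) = 0 ∧
      ((K.d = m + 2 ∧ s₀ = 2 * m - 3 ∧ 1 ≤ s₁ ∧ 1 ≤ s₂ ∧ s₁ + s₂ = m) ∨
       (∃ l : ℕ, K.d = m + 3 ∧ m = 2 * l ∧ s₀ = 4 * l - 2 ∧ s₁ = 2 * l + 1 ∧ s₂ = 1) ∨
       (∃ l : ℕ, K.d = m + 4 ∧ m = 3 * l ∧ s₀ = 6 * l - 1 ∧ s₁ = 3 * l + 3 ∧ s₂ = 1)) := by
  have hn : (K.d - m) + m = K.d := by
    have := hL.2
    omega
  have hk1 : 1 ≤ (K.form T).natDegree := by
    by_contra hcon
    have h4 : (K.form T).natDegree = 0 := by omega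
    obtain ⟨c, hc⟩ := natDegree_eq_zero.1 h4
    unfold RatCusp.pts at hpT
    rw [← hc] at hpT
    simp only [eval_C] at hpT
    by_cases h5 : c = 0
    · rw [h5] at hpT
      have h6 : {t : ℂ | (0 : ℂ) = 0} = Set.univ := by
        ext t
        simp
      rw [h6, Set.Infinite.ncard Set.infinite_univ] at hpT
      omega
    · have h6 : {t : ℂ | c = 0} = ∅ := by
        ext t
        simp [h5]
      rw [h6, Set.ncard_empty] at hpT
      omega
  have hM : K.Meets := K.WrapD_meets hm h2 hT hk1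
  exact K.mainE m (K.d - m) h2 hn hm hM (Or.inr ⟨T, L, hT, hL, Or.inl ⟨hpT, hpL, hoff⟩⟩) h3

end Pool.Agent.Results.MP_3be46f_ag.TwoLines
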